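import Pool.Agent.MP_3d8edd_pr.H69.All1

/-!
Dynamical Brownian last passage percolation: the set of times with a nontrivial bigeodesic has
Hausdorff dimension zero almost surely.
-/

open MeasureTheory ProbabilityTheory
open scoped NNReal
open Pool.Agent.MP_3d8edd_pr.H69

namespace Pool.Agent.Results.MP_3d8edd_pr.DimZero

theorem result {Ω : Type*} [MeasurableSpace Ω] (P : Measure Ω) [IsProbabilityMeasure P]
    (X : ℤ × ℤ → ℤ → ℝ≥0 → Ω → ℝ) (N : ℤ × ℤ → ℝ → Ω → ℤ) (h : IsModel P X N) :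
    ∀ᵐ ω ∂P, dimH {t : ℝ | ∃ Γ : Set (ℝ × ℤ),
      IsBigeodesic (envAt X N t ω) Γ ∧ IsNontrivial Γ} = 0 :=
  all1 P X N h

end Pool.Agent.Results.MP_3d8edd_pr.DimZero
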